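import Pool.Agent.R142.TG.PieceA
import Pool.Agent.R142.TG.PieceB
import Pool.Agent.R142.TG.PieceC
import Pool.Agent.R142.TG.PieceD1
import Pool.Agent.R142.TG.PieceD2
import Pool.Agent.R142.TG.PieceD3
import Pool.Agent.R142.TG.PieceD4

/-!
# MP_41b5b1_co: the toric g-vector of a simple polytope with nonnegative gamma-vector is an
f-vector of a simplicial complex, i.e. satisfies the Kruskal-Katona inequalities.
-/

namespace Pool.Agent.Results.MP_41b5b1_co.ToricGKruskalKatona

open Polynomial Pool.R142.TG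

/-- Let `L` be a simple Eulerian poset (for instance the face lattice of a simple polytope `P`)
of rank `d + 1`, i.e. of dimension `d`, and let `γ` be its gamma-vector.  If all entries
`γ 0, …, γ (d/2)` are nonnegative (in particular if the gamma-vector satisfies the
Kruskal-Katona inequalities), then the toric `g`-vector of `L` is the f-vector of a finite
simplicial complex. -/
theorem result (L : Type) [PartialOrder L] [BoundedOrder L] [Fintype L] (rk : L → ℕ)
    (h : IsSimpleEulerian L rk) (d : ℕ) (hd : rk ⊤ = d + 1)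
    (γ : ℕ → ℤ) (hγ : IsGamma rk ⊤ γ) (hpos : ∀ j ≤ d / 2, 0 ≤ γ j) :
    ∃ v : ℕ → ℕ, IsFVector v ∧ ∀ i, (toricG rk (⊤ : L)).coeff i = (v i : ℤ) := by
  classical
  -- gamma-vectors of all elements, agreeing with `γ` at the top
  have hex : ∀ c : L, ∃ g : ℕ → ℤ, (1 ≤ rk c → IsGamma rk c g) ∧ (c = ⊤ → g = γ) := by
    intro c
    by_cases hc : c = ⊤
    · refine ⟨γ, fun _ => hc ▸ hγ, fun _ => rfl⟩
    · by_cases h1 : 1 ≤ rk c
      · obtain ⟨g, hg⟩ := stmD2 stmD1 L rk h c h1
        exact ⟨g, fun _ => hg, fun hc' => absurd hc' hc⟩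
      · exact ⟨fun _ => 0, fun h2 => absurd h2 h1, fun hc' => absurd hc' hc⟩
  choose g hg hgtop using hex
  have htop : 1 ≤ rk (⊤ : L) := by omega
  have hmain := stmD4 stmC stmD1 stmD3 L rk h g hg ⊤ htop
  have hg1 : g ⊤ 0 = 1 :=
    D4.gamma_zero rk (stmD1 L rk h).1 ⊤ htop (g ⊤) (hg ⊤ htop)
  rw [hgtop ⊤ rfl] at hmain hg1
  have hd1 : rk (⊤ : L) - 1 = d := by omega
  rw [hd1] at hmain
  -- the nonnegative version
  let γN : ℕ → ℕ := fun j => (γ j).toNat
  have hγN : ∀ j ≤ d / 2, ((γN j : ℕ) : ℤ) = γ j := fun j hj => Int.toNat_of_nonneg (hpos j hj)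
  refine ⟨_, stmB stmA d γN, ?_⟩
  intro i
  have hpoly : toricG rk (⊤ : L) =
      (Pool.R142.TG.C d + ∑ j ∈ Finset.range (d / 2), (γN (j + 1)) • (X * R j (d - 2 * (j + 1)))).map
        (Nat.castRingHom ℤ) := by
    rw [hmain, Finset.sum_range_succ', Polynomial.map_add, Polynomial.map_sum, add_comm]
    congr 1
    · rw [hg1]
      simp [G]
    · refine Finset.sum_congr rfl fun j hj => ?_
      have hj' : j + 1 ≤ d / 2 := by
        have := Finset.mem_range.1 hj
        omega
      rw [← hγN (j + 1) hj']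
      simp [G, nsmul_eq_mul]
  rw [hpoly, coeff_map]
  rfl

end Pool.Agent.Results.MP_41b5b1_co.ToricGKruskalKatona
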